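import Pool.Agent.Q54.EM.StmN

/-!
# Project EM: box check for zone D
-/

set_option autoImplicit false

namespace Pool.Agent.Q195.EM

open Pool.Agent.Q54.EM

/-- one box -/
theorem bx (q1 q2 a1 a2 x0 q a c x : ℝ) (hq1 : 37 / 100 ≤ q1) (h1 : q1 ≤ q) (h2 : q ≤ q2)
    (hq2 : q2 ≤ 62 / 100) (ha0 : 0 ≤ a1) (h3 : a1 ≤ a) (h4 : a ≤ a2) (ha2 : a2 ≤ 15456 / 100000)
    (hc : 458 / 1000 + 88 / 1000 * a ≤ c) (hc2 : c ≤ 4724 / 10000)
    (hx0 : 13 / 10 ≤ x0) (hx1 : x0 ≤ 3963 / 1000 + 39 / 100 * a1 - 1 / (1 - q2)) (hx2 : x0 ≤ 26 / 10)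
    (hx : 3963 / 1000 + 39 / 100 * a - 1 / (1 - q) ≤ x) (hax : a * x ≤ 1)
    (G0 : (1 - (458 / 1000 + 88 / 1000 * a1) * a1) * (1 - q1 * x0) *
      ((1 - (458 / 1000 + 88 / 1000 * a1) + x0) + a1 * ((458 / 1000 + 88 / 1000 * a1) ^ 2 +
      (458 / 1000 + 88 / 1000 * a1) - ((458 / 1000 + 88 / 1000 * a1) + 2) * x0)) <
      (1 - q2) * (1 - a2 * x0) ^ 2)
    (G1 : 2 * (1 - q1) * a2 * (1 - a1 * x0) + (1 - q1 * x0) * (1 - 2 * a1) <
      (1 - 4724 / 10000 * a2) * q1 * ((1 - 4724 / 10000 + x0) + a2 * ((4724 / 10000) ^ 2 + 4724 / 10000 -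
      (4724 / 10000 + 2) * x0))) :
    (1 - c * a) * (1 - q * x) * (1 - c * (1 - c * a - a) + (1 - c * a - 2 * a) * x) <
      (1 - q) * (1 - a * x) ^ 2 := by
  set c1 : ℝ := 458 / 1000 + 88 / 1000 * a1 with hc1
  have hc1l : 458 / 1000 ≤ c1 := by rw [hc1]; linarith
  have hcc : c1 ≤ c := by rw [hc1]; linarith
  have hxx : x0 ≤ x := by
    have : 1 / (1 - q) ≤ 1 / (1 - q2) := one_div_le_one_div_of_le (by linarith) (by linarith)
    linarith
  have ha : 0 ≤ a := by linarith
  have hca : c * a ≤ 4724 / 10000 * a := mul_le_mul_of_nonneg_right hc2 ha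
  have hca0 : 0 ≤ c * a := mul_nonneg (by linarith) ha
  have hB1 : 0 ≤ 1 - c * a - 2 * a := by linarith
  have hB0 : 0 < 1 - c * (1 - c * a - a) := by
    have : c * (1 - c * a - a) ≤ c * 1 := mul_le_mul_of_nonneg_left (by linarith) (by linarith)
    linarith
  have hB : 0 < 1 - c * (1 - c * a - a) + (1 - c * a - 2 * a) * x := by
    have := mul_nonneg hB1 (by linarith : 0 ≤ x)
    linarith
  have hr : 0 < 1 - c * a := by linarith
  rcases le_or_gt (1 - q * x) 0 with hn | hp
  · have hL : (1 - c * a) * (1 - q * x) * (1 - c * (1 - c * a - a) + (1 - c * a - 2 * a) * x) ≤ 0 :=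
      mul_nonpos_of_nonpos_of_nonneg (mul_nonpos_of_nonneg_of_nonpos hr.le hn) hB.le
    rcases hax.lt_or_eq with h | h
    · exact lt_of_le_of_lt hL (mul_pos (by linarith) (pow_pos (by linarith) 2))
    · have hx3 : 1 < q * x := by
        have : a * x ≤ 15456 / 100000 * x := mul_le_mul_of_nonneg_right (by linarith) (by linarith)
        have : 37 / 100 * x ≤ q * x := mul_le_mul_of_nonneg_right (by linarith) (by linarith)
        linarith
      have : (1 - c * a) * (1 - q * x) * (1 - c * (1 - c * a - a) + (1 - c * a - 2 * a) * x) < 0 :=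
        mul_neg_of_neg_of_pos (mul_neg_of_pos_of_neg hr (by linarith)) hB
      exact lt_of_lt_of_le this (mul_nonneg (by linarith) (sq_nonneg _))
  have hqx0 : 0 < 1 - q * x0 := by
    have : q * x0 ≤ q * x := mul_le_mul_of_nonneg_left hxx (by linarith)
    linarith
  have x0p : 0 ≤ x0 := by linarith
  have c0p : 0 ≤ c := by linarith
  -- the value at x0
  have e1 : 0 ≤ 1 - a2 * x0 := by
    have : a2 * x0 ≤ 15456 / 100000 * (26 / 10) := mul_le_mul ha2 hx2 x0p (by norm_num)
    linarith
  have e2 : a * x0 ≤ a2 * x0 := mul_le_mul_of_nonneg_right h4 x0p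
  have e3 : (1 - q2) * (1 - a2 * x0) ^ 2 ≤ (1 - q) * (1 - a * x0) ^ 2 :=
    mul_le_mul (by linarith) (pow_le_pow_left₀ e1 (by linarith) 2) (sq_nonneg _) (by linarith)
  have e4 : c1 * a1 ≤ c * a := mul_le_mul hcc h3 ha0 c0p
  have e5 : q1 * x0 ≤ q * x0 := mul_le_mul_of_nonneg_right h1 x0p
  have s1 : c ^ 2 + c - (c + 2) * x0 ≤ 0 := by
    have u1 : c * c ≤ 4724 / 10000 * c := mul_le_mul_of_nonneg_right hc2 c0p
    have u2 : (c + 2) * (13 / 10) ≤ (c + 2) * x0 := mul_le_mul_of_nonneg_left hx0 (by linarith)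
    have u3 : c ^ 2 = c * c := sq c
    linarith
  have e6 : 1 - c * (1 - c * a - a) + (1 - c * a - 2 * a) * x0 ≤
      (1 - c1 + x0) + a1 * (c1 ^ 2 + c1 - (c1 + 2) * x0) := by
    have t1 : 0 ≤ (a - a1) * -(c ^ 2 + c - (c + 2) * x0) := mul_nonneg (by linarith) (by linarith)
    have t3 : a1 * (c + c1 + 1 - x0) ≤ a1 * 2 := mul_le_mul_of_nonneg_left (by linarith) ha0
    have t2 : 0 ≤ (c - c1) * (1 - a1 * (c + c1 + 1 - x0)) := mul_nonneg (by linarith) (by linarith)
    linear_combination t1 + t2
  have hBx0 : 0 ≤ 1 - c * (1 - c * a - a) + (1 - c * a - 2 * a) * x0 := by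
    have := mul_nonneg hB1 x0p
    linarith
  have e7 : (1 - c * a) * (1 - q * x0) * (1 - c * (1 - c * a - a) + (1 - c * a - 2 * a) * x0) ≤
      (1 - c1 * a1) * (1 - q1 * x0) * ((1 - c1 + x0) + a1 * (c1 ^ 2 + c1 - (c1 + 2) * x0)) :=
    mul_le_mul (mul_le_mul (by linarith) (by linarith) hqx0.le (by linarith)) e6 hBx0
      (mul_nonneg (by linarith) (by linarith))
  have E0 : (1 - c * a) * (1 - q * x0) * (1 - c * (1 - c * a - a) + (1 - c * a - 2 * a) * x0) <
      (1 - q) * (1 - a * x0) ^ 2 := lt_of_le_of_lt e7 (lt_of_lt_of_le G0 e3)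
  -- the derivative at x0
  have d1 : (1 - 4724 / 10000 + x0) + a2 * ((4724 / 10000) ^ 2 + 4724 / 10000 - (4724 / 10000 + 2) * x0) ≤
      1 - c * (1 - c * a - a) + (1 - c * a - 2 * a) * x0 := by
    have s2 : (4724 / 10000 : ℝ) ^ 2 + 4724 / 10000 - (4724 / 10000 + 2) * x0 ≤ 0 := by
      have u2 : (4724 / 10000 + 2) * (13 / 10) ≤ (4724 / 10000 + 2) * x0 :=
        mul_le_mul_of_nonneg_left hx0 (by norm_num)
      norm_num at u2 ⊢
      linarith
    have t1 : 0 ≤ (a2 - a) * -((4724 / 10000) ^ 2 + 4724 / 10000 - (4724 / 10000 + 2) * x0) :=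
      mul_nonneg (by linarith) (by linarith)
    have t3 : a * (4724 / 10000 + c + 1 - x0) ≤ a * 2 := mul_le_mul_of_nonneg_left (by linarith) ha
    have t2 : 0 ≤ (4724 / 10000 - c) * (1 - a * (4724 / 10000 + c + 1 - x0)) :=
      mul_nonneg (by linarith) (by linarith)
    linear_combination t1 + t2
  have hca2 : c * a ≤ 4724 / 10000 * a2 := mul_le_mul hc2 h4 ha (by norm_num)
  have d2 : (1 - 4724 / 10000 * a2) * q1 * ((1 - 4724 / 10000 + x0) + a2 * ((4724 / 10000) ^ 2 +
      4724 / 10000 - (4724 / 10000 + 2) * x0)) ≤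
      (1 - c * a) * q * (1 - c * (1 - c * a - a) + (1 - c * a - 2 * a) * x0) := by
    have v1 : (1 - 4724 / 10000 * a2) * q1 * ((1 - 4724 / 10000 + x0) + a2 * ((4724 / 10000) ^ 2 +
        4724 / 10000 - (4724 / 10000 + 2) * x0)) ≤
        (1 - 4724 / 10000 * a2) * q1 * (1 - c * (1 - c * a - a) + (1 - c * a - 2 * a) * x0) :=
      mul_le_mul_of_nonneg_left d1 (mul_nonneg (by linarith) (by linarith))
    have v2 : (1 - 4724 / 10000 * a2) * q1 ≤ (1 - c * a) * q :=
      mul_le_mul (by linarith) h1 (by linarith) hr.le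
    exact v1.trans (mul_le_mul_of_nonneg_right v2 hBx0)
  have d3 : (1 - c * a) * (1 - q * x0) * (1 - c * a - 2 * a) ≤ (1 - q1 * x0) * (1 - 2 * a1) := by
    have v1 : (1 - c * a) * (1 - q * x0) ≤ 1 * (1 - q1 * x0) :=
      mul_le_mul (by linarith) (by linarith) hqx0.le (by norm_num)
    rw [one_mul] at v1
    exact mul_le_mul v1 (by linarith) hB1 (by linarith)
  have d4 : 2 * (1 - q) * a * (1 - a * x0) ≤ 2 * (1 - q1) * a2 * (1 - a1 * x0) := by
    have v0 : a1 * x0 ≤ a * x0 := mul_le_mul_of_nonneg_right h3 x0p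
    exact mul_le_mul (mul_le_mul (by linarith) h4 ha (by linarith)) (by linarith) (by linarith)
      (mul_nonneg (by linarith) (by linarith))
  have E1 : 0 ≤ (1 - c * a) * q * (1 - c * (1 - c * a - a) + (1 - c * a - 2 * a) * x0) -
      (1 - c * a) * (1 - q * x0) * (1 - c * a - 2 * a) - 2 * (1 - q) * a * (1 - a * x0) := by linarith
  have F1 := mul_nonneg E1 (by linarith : 0 ≤ x - x0)
  have F2 : 0 ≤ ((1 - q) * a ^ 2 + (1 - c * a) * q * (1 - c * a - 2 * a)) * (x - x0) ^ 2 :=
    mul_nonneg (add_nonneg (mul_nonneg (by linarith) (sq_nonneg _))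
      (mul_nonneg (mul_nonneg hr.le (by linarith)) hB1)) (sq_nonneg _)
  linear_combination E0 + F1 + F2

theorem bxd : S_BXD := by
  intro q a c x hq hq' ha ha' hc hc2 hx hax
  rcases le_total q (99 / 200) with h | h
  · rcases le_total q (173 / 400) with h | h
    · rcases le_total q (1003 / 2500) with h | h
      · rcases le_total a (773 / 10000) with h | h
        · rcases le_total q (241 / 625) with h | h
          · exact bx (37 / 100) (241 / 625) (0) (773 / 10000) (23353 / 10000) q a c x (by norm_num) ‹_› ‹_› (by norm_num) (by norm_num) ‹_› ‹_› (by norm_num) hc hc2 (by norm_num) (by norm_num) (by norm_num) hx hax (by norm_num) (by norm_num)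
          · exact bx (241 / 625) (1003 / 2500) (0) (773 / 10000) (22929 / 10000) q a c x (by norm_num) ‹_› ‹_› (by norm_num) (by norm_num) ‹_› ‹_› (by norm_num) hc hc2 (by norm_num) (by norm_num) (by norm_num) hx hax (by norm_num) (by norm_num)
        · rcases le_total q (241 / 625) with h | h
          · rcases le_total a (1159 / 10000) with h | h
            · exact bx (37 / 100) (241 / 625) (773 / 10000) (1159 / 10000) (4731 / 2000) q a c x (by norm_num) ‹_› ‹_› (by norm_num) (by norm_num) ‹_› ‹_› (by norm_num) hc hc2 (by norm_num) (by norm_num) (by norm_num) hx hax (by norm_num) (by norm_num)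
            · rcases le_total q (1889 / 5000) with h | h
              · exact bx (37 / 100) (1889 / 5000) (1159 / 10000) (15456 / 100000) (2401 / 1000) q a c x (by norm_num) ‹_› ‹_› (by norm_num) (by norm_num) ‹_› ‹_› (by norm_num) hc hc2 (by norm_num) (by norm_num) (by norm_num) hx hax (by norm_num) (by norm_num)
              · exact bx (1889 / 5000) (241 / 625) (1159 / 10000) (15456 / 100000) (4761 / 2000) q a c x (by norm_num) ‹_› ‹_› (by norm_num) (by norm_num) ‹_› ‹_› (by norm_num) hc hc2 (by norm_num) (by norm_num) (by norm_num) hx hax (by norm_num) (by norm_num)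
          · rcases le_total a (1159 / 10000) with h | h
            · exact bx (241 / 625) (1003 / 2500) (773 / 10000) (1159 / 10000) (23231 / 10000) q a c x (by norm_num) ‹_› ‹_› (by norm_num) (by norm_num) ‹_› ‹_› (by norm_num) hc hc2 (by norm_num) (by norm_num) (by norm_num) hx hax (by norm_num) (by norm_num)
            · exact bx (241 / 625) (1003 / 2500) (1159 / 10000) (15456 / 100000) (23381 / 10000) q a c x (by norm_num) ‹_› ‹_› (by norm_num) (by norm_num) ‹_› ‹_› (by norm_num) hc hc2 (by norm_num) (by norm_num) (by norm_num) hx hax (by norm_num) (by norm_num)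
      · rcases le_total a (773 / 10000) with h | h
        · exact bx (1003 / 2500) (173 / 400) (0) (773 / 10000) (2751 / 1250) q a c x (by norm_num) ‹_› ‹_› (by norm_num) (by norm_num) ‹_› ‹_› (by norm_num) hc hc2 (by norm_num) (by norm_num) (by norm_num) hx hax (by norm_num) (by norm_num)
        · exact bx (1003 / 2500) (173 / 400) (773 / 10000) (15456 / 100000) (2231 / 1000) q a c x (by norm_num) ‹_› ‹_› (by norm_num) (by norm_num) ‹_› ‹_› (by norm_num) hc hc2 (by norm_num) (by norm_num) (by norm_num) hx hax (by norm_num) (by norm_num)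
    · rcases le_total q (2319 / 5000) with h | h
      · exact bx (173 / 400) (2319 / 5000) (0) (15456 / 100000) (1049 / 500) q a c x (by norm_num) ‹_› ‹_› (by norm_num) (by norm_num) ‹_› ‹_› (by norm_num) hc hc2 (by norm_num) (by norm_num) (by norm_num) hx hax (by norm_num) (by norm_num)
      · exact bx (2319 / 5000) (99 / 200) (0) (15456 / 100000) (4957 / 2500) q a c x (by norm_num) ‹_› ‹_› (by norm_num) (by norm_num) ‹_› ‹_› (by norm_num) hc hc2 (by norm_num) (by norm_num) (by norm_num) hx hax (by norm_num) (by norm_num)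
  · rcases le_total q (223 / 400) with h | h
    · rcases le_total q (2631 / 5000) with h | h
      · exact bx (99 / 200) (2631 / 5000) (0) (15456 / 100000) (4631 / 2500) q a c x (by norm_num) ‹_› ‹_› (by norm_num) (by norm_num) ‹_› ‹_› (by norm_num) hc hc2 (by norm_num) (by norm_num) (by norm_num) hx hax (by norm_num) (by norm_num)
      · exact bx (2631 / 5000) (223 / 400) (0) (15456 / 100000) (17031 / 10000) q a c x (by norm_num) ‹_› ‹_› (by norm_num) (by norm_num) ‹_› ‹_› (by norm_num) hc hc2 (by norm_num) (by norm_num) (by norm_num) hx hax (by norm_num) (by norm_num)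
    · rcases le_total q (368 / 625) with h | h
      · rcases le_total a (773 / 10000) with h | h
        · exact bx (223 / 400) (368 / 625) (0) (773 / 10000) (1531 / 1000) q a c x (by norm_num) ‹_› ‹_› (by norm_num) (by norm_num) ‹_› ‹_› (by norm_num) hc hc2 (by norm_num) (by norm_num) (by norm_num) hx hax (by norm_num) (by norm_num)
        · exact bx (223 / 400) (368 / 625) (773 / 10000) (15456 / 100000) (3903 / 2500) q a c x (by norm_num) ‹_› ‹_› (by norm_num) (by norm_num) ‹_› ‹_› (by norm_num) hc hc2 (by norm_num) (by norm_num) (by norm_num) hx hax (by norm_num) (by norm_num)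
      · rcases le_total a (773 / 10000) with h | h
        · rcases le_total q (1511 / 2500) with h | h
          · exact bx (368 / 625) (1511 / 2500) (0) (773 / 10000) (14351 / 10000) q a c x (by norm_num) ‹_› ‹_› (by norm_num) (by norm_num) ‹_› ‹_› (by norm_num) hc hc2 (by norm_num) (by norm_num) (by norm_num) hx hax (by norm_num) (by norm_num)
          · rcases le_total a (193 / 5000) with h | h
            · rcases le_total q (3061 / 5000) with h | h
              · exact bx (1511 / 2500) (3061 / 5000) (0) (193 / 5000) (13843 / 10000) q a c x (by norm_num) ‹_› ‹_› (by norm_num) (by norm_num) ‹_› ‹_› (by norm_num) hc hc2 (by norm_num) (by norm_num) (by norm_num) hx hax (by norm_num) (by norm_num)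
              · rcases le_total a (193 / 10000) with h | h
                · exact bx (3061 / 5000) (62 / 100) (0) (193 / 10000) (6657 / 5000) q a c x (by norm_num) ‹_› ‹_› (by norm_num) (by norm_num) ‹_› ‹_› (by norm_num) hc hc2 (by norm_num) (by norm_num) (by norm_num) hx hax (by norm_num) (by norm_num)
                · exact bx (3061 / 5000) (62 / 100) (193 / 10000) (193 / 5000) (13389 / 10000) q a c x (by norm_num) ‹_› ‹_› (by norm_num) (by norm_num) ‹_› ‹_› (by norm_num) hc hc2 (by norm_num) (by norm_num) (by norm_num) hx hax (by norm_num) (by norm_num)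
            · rcases le_total q (3061 / 5000) with h | h
              · exact bx (1511 / 2500) (3061 / 5000) (193 / 5000) (773 / 10000) (6997 / 5000) q a c x (by norm_num) ‹_› ‹_› (by norm_num) (by norm_num) ‹_› ‹_› (by norm_num) hc hc2 (by norm_num) (by norm_num) (by norm_num) hx hax (by norm_num) (by norm_num)
              · rcases le_total a (29 / 500) with h | h
                · exact bx (3061 / 5000) (62 / 100) (193 / 5000) (29 / 500) (1683 / 1250) q a c x (by norm_num) ‹_› ‹_› (by norm_num) (by norm_num) ‹_› ‹_› (by norm_num) hc hc2 (by norm_num) (by norm_num) (by norm_num) hx hax (by norm_num) (by norm_num)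
                · exact bx (3061 / 5000) (62 / 100) (29 / 500) (773 / 10000) (677 / 500) q a c x (by norm_num) ‹_› ‹_› (by norm_num) (by norm_num) ‹_› ‹_› (by norm_num) hc hc2 (by norm_num) (by norm_num) (by norm_num) hx hax (by norm_num) (by norm_num)
        · rcases le_total q (1511 / 2500) with h | h
          · exact bx (368 / 625) (1511 / 2500) (773 / 10000) (15456 / 100000) (14653 / 10000) q a c x (by norm_num) ‹_› ‹_› (by norm_num) (by norm_num) ‹_› ‹_› (by norm_num) hc hc2 (by norm_num) (by norm_num) (by norm_num) hx hax (by norm_num) (by norm_num)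
          · rcases le_total a (1159 / 10000) with h | h
            · rcases le_total q (3061 / 5000) with h | h
              · exact bx (1511 / 2500) (3061 / 5000) (773 / 10000) (1159 / 10000) (884 / 625) q a c x (by norm_num) ‹_› ‹_› (by norm_num) (by norm_num) ‹_› ‹_› (by norm_num) hc hc2 (by norm_num) (by norm_num) (by norm_num) hx hax (by norm_num) (by norm_num)
              · rcases le_total a (483 / 5000) with h | h
                · exact bx (3061 / 5000) (62 / 100) (773 / 10000) (483 / 5000) (2723 / 2000) q a c x (by norm_num) ‹_› ‹_› (by norm_num) (by norm_num) ‹_› ‹_› (by norm_num) hc hc2 (by norm_num) (by norm_num) (by norm_num) hx hax (by norm_num) (by norm_num)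
                · exact bx (3061 / 5000) (62 / 100) (483 / 5000) (1159 / 10000) (1369 / 1000) q a c x (by norm_num) ‹_› ‹_› (by norm_num) (by norm_num) ‹_› ‹_› (by norm_num) hc hc2 (by norm_num) (by norm_num) (by norm_num) hx hax (by norm_num) (by norm_num)
            · rcases le_total q (3061 / 5000) with h | h
              · exact bx (1511 / 2500) (3061 / 5000) (1159 / 10000) (15456 / 100000) (2859 / 2000) q a c x (by norm_num) ‹_› ‹_› (by norm_num) (by norm_num) ‹_› ‹_› (by norm_num) hc hc2 (by norm_num) (by norm_num) (by norm_num) hx hax (by norm_num) (by norm_num)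
              · rcases le_total a (169 / 1250) with h | h
                · exact bx (3061 / 5000) (62 / 100) (1159 / 10000) (169 / 1250) (6883 / 5000) q a c x (by norm_num) ‹_› ‹_› (by norm_num) (by norm_num) ‹_› ‹_› (by norm_num) hc hc2 (by norm_num) (by norm_num) (by norm_num) hx hax (by norm_num) (by norm_num)
                · exact bx (3061 / 5000) (62 / 100) (169 / 1250) (15456 / 100000) (13841 / 10000) q a c x (by norm_num) ‹_› ‹_› (by norm_num) (by norm_num) ‹_› ‹_› (by norm_num) hc hc2 (by norm_num) (by norm_num) (by norm_num) hx hax (by norm_num) (by norm_num)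

end Pool.Agent.Q195.EM
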