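import Pool.Agent.Q54.EM.StmN

/-!
# Project EM: rewriting of the numerical facts
-/

set_option autoImplicit false

namespace Pool.Agent.Q195.EM

open Pool.Agent.Q54.EM

theorem ff_sum (c z : ℝ) (h0 : 0 < z) (h1 : z < 1) :
    HasSum (fun n : ℕ => z ^ (n + 1) * (1 / ((n : ℝ) + 2) - c / ((n : ℝ) + 1))) ((1 - c * z) * ff z - 1) := by
  have H : HasSum (fun n : ℕ => z ^ (n + 1) / ((n : ℝ) + 1)) (-Real.log (1 - z)) :=
    Real.hasSum_pow_div_log_of_abs_lt_one (by rw [abs_of_pos h0]; exact h1)
  have hz : z ≠ 0 := h0.ne'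
  have H1 : HasSum (fun n : ℕ => z ^ n / ((n : ℝ) + 1)) (ff z) := by
    have e0 : (fun n : ℕ => z ^ n / ((n : ℝ) + 1)) = fun n : ℕ => z ^ (n + 1) / ((n : ℝ) + 1) / z := by
      funext n
      rw [pow_succ]
      field_simp
    rw [e0]
    exact H.div_const z
  have H2 := (hasSum_nat_add_iff' 1).mpr H1
  have H3 := H2.sub (H.mul_left c)
  have e1 : (1 - c * z) * ff z - 1 =
      ff z - ∑ i ∈ Finset.range 1, z ^ i / ((i : ℝ) + 1) - c * -Real.log (1 - z) := by
    unfold ff
    simp
    field_simp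
    ring
  rw [e1]
  have e2 : (fun n : ℕ => z ^ (n + 1) * (1 / ((n : ℝ) + 2) - c / ((n : ℝ) + 1))) =
      fun n : ℕ => z ^ (n + 1) / (((n + 1 : ℕ) : ℝ) + 1) - c * (z ^ (n + 1) / ((n : ℝ) + 1)) := by
    funext n
    push_cast
    have : (n : ℝ) + 2 = n + 1 + 1 := by ring
    rw [this]
    ring
  rw [e2]
  exact H3

theorem phi_mono (c x y : ℝ) (hc : c ≤ 1 / 2) (hx : 0 < x) (hxy : x ≤ y) (hy : y < 1) :
    (1 - c * x) * ff x ≤ (1 - c * y) * ff y := by
  have hle : ∀ n : ℕ, x ^ (n + 1) * (1 / ((n : ℝ) + 2) - c / ((n : ℝ) + 1)) ≤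
      y ^ (n + 1) * (1 / ((n : ℝ) + 2) - c / ((n : ℝ) + 1)) := by
    intro n
    have h1 : x ^ (n + 1) ≤ y ^ (n + 1) := pow_le_pow_left₀ hx.le hxy _
    refine mul_le_mul_of_nonneg_right h1 ?_
    have hn : (0 : ℝ) ≤ n := Nat.cast_nonneg n
    rw [sub_nonneg, div_le_div_iff₀ (by linarith) (by linarith)]
    have : c * ((n : ℝ) + 2) ≤ 1 / 2 * ((n : ℝ) + 2) := mul_le_mul_of_nonneg_right hc (by linarith)
    linarith
  have h := hasSum_le hle (ff_sum c x hx (lt_of_le_of_lt hxy hy)) (ff_sum c y (lt_of_lt_of_le hx hxy) hy)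
  linarith

theorem ff_nonneg (q : ℝ) (h0 : 0 < q) (h1 : q < 1) : 0 ≤ ff q := by
  unfold ff
  exact div_nonneg (neg_nonneg.mpr (Real.log_nonpos (by linarith) (by linarith))) h0.le

theorem nt : S_CS → S_NT := by
  intro CS k r l h w1 W q a c t e x B N hq ha hc ht he hx hB
  obtain ⟨ap, a2, cl, cu, T1, T2, T3, Tl, r92⟩ := CS k r N.k6 N.rc
  rw [← ha] at ap a2 cl Tl T3
  rw [← hc] at cl cu T3
  have r0 : 0 < r := N.rc.1
  have r1 : r < 1 := N.rc.2.1
  have k0 : (0 : ℝ) < k := by
    have : (6 : ℝ) ≤ k := by exact_mod_cast N.k6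
    linarith
  have l0 := N.l0
  have h0 := N.h0
  have lh : 1 + e = l / h := by rw [he]; ring
  have rca : r = 1 - c * a := by
    rw [hc, ha]
    field_simp
    ring
  have aqt : a = q * (1 - t) := by
    rw [ha, hq, ht]
    field_simp
    ring
  have q0 : 0 < q := by rw [hq]; exact div_pos r0 l0
  have q1 : q < 1 := by rw [hq, div_lt_one l0]; exact N.ql
  have e0 : 0 ≤ e := by
    rw [he, sub_nonneg, one_le_div h0]
    exact N.hl
  have t1 : t < 1 := by
    rw [ht]
    have := div_pos l0 k0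
    linarith
  have xe : x = 1 / (q * (1 + e)) := by
    rw [lh, hx, hq]
    field_simp
  have x0 : 0 < x := by rw [hx]; exact div_pos h0 r0
  have kh : k * (1 - r) / h = c * q * (1 + e) := by
    rw [lh, hc, hq]
    field_simp
  have cx : c ≤ (1 - q) * x := by
    have h1 := N.LH
    rw [← hq] at h1
    have e1 : (1 - q) * (h / r) = (1 - q) * h / r := by ring
    rw [hc, hx, e1]
    exact div_le_div_of_nonneg_right h1 r0.le
  have xq : x ≤ 1 / q := by
    rw [hx, hq, one_div_div]
    exact div_le_div_of_nonneg_right N.hl r0.le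
  have TA : (1 - c * a) * ff a < (1 - c * q * (1 + e)) * ff q := by
    have h1 := N.TA
    rw [kh, ← hq] at h1
    have h2 : Real.log W < Real.log (1 - r ^ k) := Real.log_lt_log N.W0 N.WT
    rw [← rca]
    linarith
  have c0 : 0 < c := by linarith
  have lk : l < k := by
    by_contra hn
    have hn : (k : ℝ) ≤ l := not_lt.mp hn
    have qa : q ≤ a := by
      rw [hq, ha]
      exact div_le_div_of_nonneg_left r0.le k0 hn
    have s1 := phi_mono c q a (by linarith) q0 qa (by linarith)
    have s2 : 0 ≤ ff q := ff_nonneg q q0 q1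
    have s3 : (1 - c * q * (1 + e)) * ff q ≤ (1 - c * q) * ff q := by
      refine mul_le_mul_of_nonneg_right ?_ s2
      have : 0 ≤ c * q * e := by positivity
      linarith
    linarith
  have axh : a * x = h / k := by
    rw [ha, hx]
    field_simp
  have ax : a * x ≤ 1 := by
    rw [axh, div_le_one k0]
    exact N.hl.trans lk.le
  have qxh : q * x = h / l := by
    rw [hq, hx]
    field_simp
  -- the form of XX
  have s0 : 0 < √(1 - q) := Real.sqrt_pos.mpr (by linarith)
  have ss : √(1 - q) ^ 2 = 1 - q := Real.sq_sqrt (by linarith)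
  have sq1 : 1 - √(1 - q) = q / (1 + √(1 - q)) := by
    rw [eq_div_iff (by linarith)]
    linear_combination -ss
  have XX : (1 - q) * q * (t * (1 / (1 - c * a)) - q / ((1 - t) * (1 + √(1 - q)) ^ 2)) ≤
      e * (1 - (1 - q) * q * (1 / (1 - c * a) - q / ((1 - t) * (1 + √(1 - q)) ^ 2))) := by
    have h1 := N.XX
    rw [← hq] at h1
    have h2 := div_le_div_of_nonneg_right h1 h0.le
    have e1 : (l - h) / h = e := by rw [he]; field_simp
    have e2 : 1 / h = (1 + e) * q / r := by rw [lh, hq]; field_simp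
    have e3 : 1 / (k : ℝ) = q * (1 - t) / r := by rw [← aqt, ha]; field_simp
    have e4 : (k : ℝ) / h = (1 + e) / (1 - t) := by
      have : 1 - t = l / k := by rw [ht]; ring
      rw [lh, this]
      field_simp
    have e5 : (1 - q) * ((1 - h / k) - k * (1 - √(1 - q)) ^ 2) / h =
        (1 - q) * ((1 / h - 1 / k) - k / h * (1 - √(1 - q)) ^ 2) := by
      field_simp
    rw [e1, e5, e2, e3, e4, sq1] at h2
    rw [← rca]
    have t10 : 0 < 1 - t := by linarith
    have e6 : (1 - q) * ((1 + e) * q / r - q * (1 - t) / r - (1 + e) / (1 - t) * (q / (1 + √(1 - q))) ^ 2)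
        = (1 - q) * q * (t * (1 / r) - q / ((1 - t) * (1 + √(1 - q)) ^ 2)) +
          e * ((1 - q) * q * (1 / r - q / ((1 - t) * (1 + √(1 - q)) ^ 2))) := by
      field_simp
      ring
    rw [e6] at h2
    linarith
  -- the form of P0
  have P1 : (1 - q) * (1 - c * a) ≤ q * B → (1 - q) * (1 - a * x) ^ 2 ≤ (1 - c * a) * (1 - q * x) * B := by
    intro hp
    have h1 := N.P0
    rw [← hq, ← axh] at h1
    have ka : (k : ℝ) * a = r := by rw [ha]; field_simp
    have eB : (1 - a * x) + ((k : ℝ) - 1) * (r - (1 - a * x)) = B := by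
      rw [hB, rca]
      have ka' : (k : ℝ) * a = 1 - c * a := by rw [ka, rca]
      linear_combination (x - c) * ka'
    rw [eB] at h1
    have ql : q * l = r := by rw [hq]; field_simp
    have h2 : (1 - q) * l ≤ B := by
      have : q * ((1 - q) * l) ≤ q * B := by
        have : q * ((1 - q) * l) = (1 - q) * (1 - c * a) := by rw [← rca, ← ql]; ring
        linarith
      exact le_of_mul_le_mul_left this q0
    have h3 := h1 h2
    have e1 : r * (l - h) * B = l * ((1 - c * a) * (1 - q * x) * B) := by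
      rw [qxh, ← rca]
      field_simp
    have e2 : (1 - q) * l * (1 - a * x) ^ 2 = l * ((1 - q) * (1 - a * x) ^ 2) := by ring
    rw [e1, e2] at h3
    exact le_of_mul_le_mul_left h3 l0
  have P2 : (1 - q) * (1 - c * a) ≤ q * B → (1 - q) * q * (t + e) ^ 2 ≤ (1 - c * a) * e *
      (q * (1 + e) * (1 - c * (1 - c * a - a)) + (1 - c * a) - 2 * a) := by
    intro hp
    have h1 := P1 hp
    have e1' : 0 < 1 + e := by linarith
    have e1 : a * x * (1 + e) = 1 - t := by rw [xe, aqt]; field_simp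
    have e2 : q * x * (1 + e) = 1 := by rw [xe]; field_simp
    have h2 := mul_le_mul_of_nonneg_left h1 (by positivity : 0 ≤ q * (1 + e) ^ 2)
    have e3 : q * (1 + e) ^ 2 * ((1 - q) * (1 - a * x) ^ 2) = (1 - q) * q * (t + e) ^ 2 := by
      have : (1 + e) * (1 - a * x) = t + e := by linear_combination -e1
      rw [← this]
      ring
    have e4 : q * (1 + e) ^ 2 * ((1 - c * a) * (1 - q * x) * B) = (1 - c * a) * e *
        (q * (1 + e) * (1 - c * (1 - c * a - a)) + (1 - c * a) - 2 * a) := by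
      have v1 : (1 + e) * (1 - q * x) = e := by linear_combination -e2
      have v2 : q * (1 + e) * B = q * (1 + e) * (1 - c * (1 - c * a - a)) + (1 - c * a) - 2 * a := by
        rw [hB]
        linear_combination (1 - c * a - 2 * a) * e2
      rw [← v2]
      nth_rewrite 2 [← v1]
      ring
    rw [e3, e4] at h2
    exact h2
  have E3 : (1 + c) / (1 - r ^ k) - 1 / (1 - q) < x := by
    have h1 := N.E3
    have W0 := N.W0
    have hw := N.w1e
    rw [← hq] at hw
    have q10 : 0 < 1 - q := by linarith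
    have h2 : (1 + c) / W - 1 / (1 - q) ≤ x := by
      have e1 : k * (1 - r) + r * (1 - w1) = r * (1 + c - w1) := by
        rw [hc]
        field_simp
        ring
      have e2 : W * h = r * (W * x) := by rw [hx]; field_simp
      rw [e1, e2] at h1
      have h3 := le_of_mul_le_mul_left h1 r0
      have e3 : (1 + c) / W - 1 / (1 - q) = (1 + c - w1) / W := by
        have : 1 / (1 - q) = w1 / W := by
          rw [eq_div_iff W0.ne', hw]
          field_simp
        rw [this]
        ring
      rw [e3, div_le_iff₀ W0]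
      linarith
    have h3 : (1 + c) / (1 - r ^ k) < (1 + c) / W := div_lt_div_of_pos_left (by linarith) W0 N.WT
    linarith
  exact ⟨rca, aqt, q0, q1, ap, e0, t1, xe, by rw [kh], cx, xq, ax, TA, XX, P1, P2, E3⟩

end Pool.Agent.Q195.EM
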